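import Pool.Agent.TH300.Ge

/-!
# MP_e2f52c_an, Q1: the assertion is false

There is a Dir-minimizing `3/2`-valued function (`m = n = Q = 2`) on the unit disc of the plane,
with interface the real diameter and a `C^∞` datum `φ`, whose set of genuine boundary singularities
has positive Hausdorff dimension (`m - 2 = 0`).
-/

open MeasureTheory Metric Set
open scoped ContDiff ENNReal

open Pool.Agent.TH300

/-- Disproof of Q1. -/
theorem Pool.Agent.Results.MP_e2f52c_an.GenuineCantor.result :
    ∃ (φ : ℝ → ℂ) (gp : ℂ → Fin (1 + 1) → ℂ) (gm : ℂ → Fin 1 → ℂ),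
      ContDiff ℝ ∞ φ ∧ IsDirMinimizing 1 (ball 0 1) φ gp gm ∧
        0 < dimH {p | IsGenuine 1 (ball 0 1) gp gm p} :=
  main
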